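import Pool.Agent.helper34.FJ3.DefsB

set_option autoImplicit false

/-!
FJ3, module B6: transport of discrete geodesics along edge paths.
-/

namespace Pool.Agent.helper40.FJ3

open Pool.Agent.helper34.FJ2 Pool.Agent.helper34.FJ3
open scoped BigOperators

/-- The statement of `exists_section` (B5c). -/
def ExSec : Prop := ∀ (M : Type) [MetricSpace M] [CompleteSpace M] (r0 : ℝ) (k : ℕ), LCN M r0 →
  0 < k → ∀ (E : Type) [NormedAddCommGroup E] [NormedSpace ℝ E] (C : Set E), Convex ℝ C →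
  ∀ c0 ∈ C, ∀ (x : E → M) (Λ : ℝ), 0 < Λ →
  (∀ c ∈ C, ∀ c' ∈ C, dist (x c) (x c') ≤ Λ * ‖c - c'‖) →
  ∀ B : ℝ, (∀ c ∈ C, ‖c - c0‖ ≤ B) → ∀ (L : ℝ) (q : ℕ → M), KGeo k L q → q k = x c0 →
  L + Λ * B ≤ k * (r0 / 16) →
  ∃ (s : E → ℕ → M) (ℓ : E → ℝ), IsSection k (q 0) (r0 / 16) Λ C x s ℓ ∧ s c0 = q ∧
    ∀ c ∈ C, ℓ c ≤ L + Λ * ‖c - c0‖

/-- The statement of `section_unique` (B5c). -/
def SecUniq : Prop := ∀ (M : Type) [MetricSpace M] (r0 : ℝ) (k : ℕ), LCN M r0 →
  0 < k → ∀ (E : Type) [NormedAddCommGroup E] [NormedSpace ℝ E] (C : Set E), Convex ℝ C →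
  ∀ c0 ∈ C, ∀ (x : E → M) (Λ : ℝ), 0 < Λ → ∀ (O : M) (s s' : E → ℕ → M) (ℓ ℓ' : E → ℝ),
  IsSection k O (r0 / 16) Λ C x s ℓ → IsSection k O (r0 / 16) Λ C x s' ℓ' →
  s c0 = s' c0 → ∀ c ∈ C, s c = s' c

lemma kgeo_len_eq {M : Type} [MetricSpace M] {k : ℕ} {L : ℝ} {q : ℕ → M} (hk : 0 < k)
    (h : KGeo k L q) : L = k * dist (q 0) (q 1) := by
  rw [h.step 0 hk]
  field_simp

/-- Restriction of a section along a `1`-Lipschitz map from the unit interval. -/
lemma comp_section {M : Type} [MetricSpace M] {k : ℕ} {O : M} {r1 Λ : ℝ} {E : Type}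
    [NormedAddCommGroup E] [NormedSpace ℝ E] {C : Set E} {x : E → M} {s : E → ℕ → M} {ℓ : E → ℝ}
    (hΛ : 0 < Λ) (h : IsSection k O r1 Λ C x s ℓ) (f : ℝ → E)
    (hf : ∀ t ∈ Set.Icc (0 : ℝ) 1, f t ∈ C)
    (hl : ∀ t ∈ Set.Icc (0 : ℝ) 1, ∀ t' ∈ Set.Icc (0 : ℝ) 1, ‖f t - f t'‖ ≤ ‖t - t'‖)
    (y : ℝ → M) (hy : ∀ t ∈ Set.Icc (0 : ℝ) 1, x (f t) = y t) :
    IsSection k O r1 Λ (Set.Icc (0 : ℝ) 1) y (fun t => s (f t)) (fun t => ℓ (f t)) := by
  constructor
  · intro t ht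
    exact h.geo _ (hf t ht)
  · intro t ht
    exact h.len _ (hf t ht)
  · intro t ht
    exact h.start _ (hf t ht)
  · intro t ht
    rw [h.fin _ (hf t ht), hy t ht]
  · intro t ht t' ht' hle
    refine h.near _ (hf t ht) _ (hf t' ht') (le_trans ?_ hle)
    exact mul_le_mul_of_nonneg_left (hl t ht t' ht') hΛ.le

lemma zero_mem_I : (0 : ℝ) ∈ Set.Icc (0 : ℝ) 1 := ⟨le_refl _, zero_le_one⟩
lemma one_mem_I : (1 : ℝ) ∈ Set.Icc (0 : ℝ) 1 := ⟨zero_le_one, le_refl _⟩

section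

variable {V : Type} {Y : Complex2 V} {len : V → V → ℝ} {Γ : V → MGraph V}
  (R : Realization Y len Γ)

/-- Transport along an edge. -/
def ER (O : V) (k : ℕ) (a b : V) (q q' : ℕ → R.M) : Prop :=
  ∃ (s : ℝ → ℕ → R.M) (ℓ : ℝ → ℝ),
    IsSection k (R.vert O) (R.r0 / 16) R.lip (Set.Icc (0 : ℝ) 1) (R.ep a b) s ℓ ∧
    s 0 = q ∧ s 1 = q'

/-- A discrete geodesic from `O` to `a` with length at most `L`. -/
def Good (O : V) (k : ℕ) (a : V) (L : ℝ) (q : ℕ → R.M) : Prop :=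
  ∃ L', KGeo k L' q ∧ L' ≤ L ∧ q 0 = R.vert O ∧ q k = R.vert a

variable {R} {O : V} {k : ℕ}

lemma ER.unique (hU : SecUniq) (hk : 0 < k) {a b : V} {q q' q'' : ℕ → R.M}
    (h : ER R O k a b q q') (h' : ER R O k a b q q'') : q' = q'' := by
  obtain ⟨s, ℓ, hs, h0, h1⟩ := h
  obtain ⟨s', ℓ', hs', h0', h1'⟩ := h'
  rw [← h1, ← h1']
  exact hU R.M R.r0 k R.cn hk ℝ (Set.Icc (0 : ℝ) 1) (convex_Icc 0 1) 0 zero_mem_I _ _ R.lip_pos
    _ _ _ _ _ hs hs' (by rw [h0, h0']) 1 one_mem_I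

lemma ER.symm {a b : V} (hab : Y.edge a b) {q q' : ℕ → R.M}
    (h : ER R O k a b q q') : ER R O k b a q' q := by
  obtain ⟨s, ℓ, hs, h0, h1⟩ := h
  refine ⟨fun t => s (1 - t), fun t => ℓ (1 - t), comp_section R.lip_pos hs (fun t => 1 - t)
    ?_ ?_ _ ?_, ?_, ?_⟩
  · intro t ht
    exact ⟨by linarith [ht.2], by linarith [ht.1]⟩
  · intro t _ t' _
    have : (1 - t) - (1 - t') = -(t - t') := by ring
    rw [this, norm_neg]
  · intro t _
    exact (R.ep_symm a b t hab).symm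
  · simp only [sub_zero]
    exact h1
  · simp only [sub_self]
    exact h0

lemma ep_one {a b : V} (hab : Y.edge a b) : R.ep a b 1 = R.vert b := by
  rw [← R.ep_zero b a (Y.edge_symm _ _ hab), R.ep_symm a b 0 hab, sub_zero]

lemma ER.exists (hE : ExSec) (hk : 0 < k) {a b : V} (hab : Y.edge a b) {L : ℝ} {q : ℕ → R.M}
    (hq : Good R O k a L q) (hL : L + R.lip ≤ k * (R.r0 / 16)) :
    ∃ q', ER R O k a b q q' ∧ Good R O k b (L + R.lip) q' := by
  obtain ⟨L', hg, hL', h0, hqk⟩ := hq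
  obtain ⟨s, ℓ, hs, hs0, hℓ⟩ := hE R.M R.r0 k R.cn hk ℝ (Set.Icc (0 : ℝ) 1) (convex_Icc 0 1) 0
    zero_mem_I (R.ep a b) R.lip R.lip_pos
    (fun c hc c' hc' => R.ep_lip a b c c' hab hc.1 hc.2 hc'.1 hc'.2) 1
    (fun c hc => by
      rw [sub_zero, Real.norm_eq_abs, abs_of_nonneg hc.1]
      exact hc.2) L' q hg (by rw [hqk, R.ep_zero a b hab]) (by linarith)
  rw [h0] at hs
  refine ⟨s 1, ⟨s, ℓ, hs, hs0, rfl⟩, ℓ 1, hs.geo 1 one_mem_I, ?_, hs.start 1 one_mem_I, ?_⟩
  · have := hℓ 1 one_mem_I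
    rw [sub_zero, norm_one, mul_one] at this
    linarith
  · rw [hs.fin 1 one_mem_I, ep_one hab]

/-- `ER` preserves `Good`. -/
lemma ER.good (hE : ExSec) (hU : SecUniq) (hk : 0 < k) {a b : V} (hab : Y.edge a b) {L : ℝ}
    {q q' : ℕ → R.M} (hq : Good R O k a L q) (hL : L + R.lip ≤ k * (R.r0 / 16))
    (h : ER R O k a b q q') : Good R O k b (L + R.lip) q' := by
  obtain ⟨q'', h1, h2⟩ := ER.exists hE hk hab hq hL
  rw [h.unique hU hk h1]
  exact h2

/-- Transport around a triangle. -/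
lemma ER.tri (hE : ExSec) (hk : 0 < k) {a b c : V} (habc : Y.tri a b c) {L : ℝ}
    {q : ℕ → R.M} (hq : Good R O k a L q) (hL : L + R.lip ≤ k * (R.r0 / 16)) :
    ∃ q1 q2, ER R O k a b q q1 ∧ ER R O k b c q1 q2 ∧ ER R O k a c q q2 := by
  obtain ⟨L', hg, hL', h0, hqk⟩ := hq
  have hab := Y.tri_edge _ _ _ habc
  have hconv : Convex ℝ stdTri := by
    intro u hu v hv α β hα hβ hαβ
    refine ⟨?_, ?_, ?_⟩
    · simp only [Prod.fst_add, Prod.smul_fst, smul_eq_mul]
      have := mul_nonneg hα hu.1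
      have := mul_nonneg hβ hv.1
      linarith
    · simp only [Prod.snd_add, Prod.smul_snd, smul_eq_mul]
      have := mul_nonneg hα hu.2.1
      have := mul_nonneg hβ hv.2.1
      linarith
    · simp only [Prod.fst_add, Prod.smul_fst, smul_eq_mul, Prod.snd_add, Prod.smul_snd]
      have h1 := mul_le_mul_of_nonneg_left hu.2.2 hα
      have h2 := mul_le_mul_of_nonneg_left hv.2.2 hβ
      linarith
  have h00 : ((0 : ℝ), (0 : ℝ)) ∈ stdTri := ⟨le_refl _, le_refl _, by norm_num⟩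
  obtain ⟨s, ℓ, hs, hs0, -⟩ := hE R.M R.r0 k R.cn hk (ℝ × ℝ) stdTri hconv (0, 0)
    h00 (R.tp a b c) R.lip R.lip_pos
    (fun u hu v hv => R.tp_lip a b c habc u hu v hv) 1
    (fun u hu => by
      have hu1 := hu.1
      have hu2 := hu.2.1
      have hu3 := hu.2.2
      rw [Prod.norm_def]
      simp only [Prod.fst_sub, Prod.snd_sub, sub_zero, Real.norm_eq_abs]
      rw [abs_of_nonneg hu1, abs_of_nonneg hu2]
      exact max_le (by linarith) (by linarith)) L' q hg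
    (by rw [hqk, R.tp_ab a b c 0 habc, R.ep_zero a b hab]) (by linarith)
  rw [h0] at hs
  have e1 := comp_section R.lip_pos hs (fun t => ((t : ℝ), (0 : ℝ)))
    (fun t ht => ⟨ht.1, le_refl _, by simpa using ht.2⟩)
    (fun t _ t' _ => by
      rw [Prod.norm_def]
      simp only [Prod.fst_sub, Prod.snd_sub, sub_self, norm_zero]
      exact max_le (le_refl _) (norm_nonneg _)) (R.ep a b) (fun t _ => R.tp_ab a b c t habc)
  have e2 := comp_section R.lip_pos hs (fun t => ((1 - t : ℝ), (t : ℝ)))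
    (fun t ht => ⟨by linarith [ht.2], ht.1, by simp⟩)
    (fun t _ t' _ => by
      rw [Prod.norm_def]
      simp only [Prod.fst_sub, Prod.snd_sub]
      have : (1 - t) - (1 - t') = -(t - t') := by ring
      rw [this, norm_neg, max_self]) (R.ep b c) (fun t _ => R.tp_bc a b c t habc)
  have e3 := comp_section R.lip_pos hs (fun t => ((0 : ℝ), (t : ℝ)))
    (fun t ht => ⟨le_refl _, ht.1, by simpa using ht.2⟩)
    (fun t _ t' _ => by
      rw [Prod.norm_def]
      simp only [Prod.fst_sub, Prod.snd_sub, sub_self, norm_zero]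
      exact max_le (norm_nonneg _) (le_refl _)) (R.ep a c) (fun t _ => R.tp_ac a b c t habc)
  refine ⟨s (1, 0), s (0, 1), ⟨_, _, e1, hs0, rfl⟩, ⟨_, _, e2, ?_, ?_⟩, ⟨_, _, e3, hs0, rfl⟩⟩
  · simp only [sub_zero]
  · simp only [sub_self]

variable (R O k)

/-- Transport along an edge path. -/
def AL : V → List V → (ℕ → R.M) → (ℕ → R.M) → Prop
  | _, [], q, q' => q = q'
  | a, b :: l, q, q' => ∃ q1, ER R O k a b q q1 ∧ AL b l q1 q'

variable {R O k}

lemma AL.unique (hU : SecUniq) (hk : 0 < k) {a : V} {l : List V} {q q' q'' : ℕ → R.M}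
    (h : AL R O k a l q q') (h' : AL R O k a l q q'') : q' = q'' := by
  induction l generalizing a q with
  | nil => exact h.symm.trans h'
  | cons b l ih =>
    obtain ⟨q1, h1, h2⟩ := h
    obtain ⟨q1', h1', h2'⟩ := h'
    have := h1.unique hU hk h1'
    subst this
    exact ih h2 h2'

lemma AL.append {a : V} {l m : List V} {q q' q'' : ℕ → R.M}
    (h : AL R O k a l q q') (h' : AL R O k (endp a l) m q' q'') :
    AL R O k a (l ++ m) q q'' := by
  induction l generalizing a q with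
  | nil =>
    have : q = q' := h
    subst this
    exact h'
  | cons b l ih =>
    obtain ⟨q1, h1, h2⟩ := h
    exact ⟨q1, h1, ih h2 h'⟩

lemma AL.exists (hE : ExSec) (hk : 0 < k) {a : V} {l : List V} (hl : IsPath Y a l) {L : ℝ}
    {q : ℕ → R.M} (hq : Good R O k a L q) (hL : L + l.length * R.lip ≤ k * (R.r0 / 16)) :
    ∃ q', AL R O k a l q q' ∧ Good R O k (endp a l) (L + l.length * R.lip) q' := by
  induction l generalizing a q L with
  | nil =>
    refine ⟨q, rfl, ?_⟩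
    simpa using hq
  | cons b l ih =>
    have hlip := R.lip_pos
    have hlen : ((b :: l).length : ℝ) = l.length + 1 := by simp
    rw [hlen] at hL
    have hnn : (0 : ℝ) ≤ l.length * R.lip := by positivity
    obtain ⟨q1, h1, h2⟩ := ER.exists hE hk hl.1 hq (by linarith)
    obtain ⟨q', h3, h4⟩ := ih hl.2 h2 (by linarith)
    refine ⟨q', ⟨q1, h1, h3⟩, ?_⟩
    rw [hlen]
    have : L + (l.length + 1 : ℝ) * R.lip = L + R.lip + l.length * R.lip := by ring
    rw [this]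
    exact h4

/-- Homotopy invariance of the transport. -/
lemma AL.htpy (R : Realization Y len Γ) (O : V) (hE : ExSec) (hU : SecUniq) {a : V}
    {l m : List V} (h : Htpy Y a l m) (hl : IsPath Y a l) :
    ∃ B : ℝ, ∀ (k : ℕ), 0 < k → ∀ (L : ℝ) (q : ℕ → R.M), Good R O k a L q →
      L + B ≤ k * (R.r0 / 16) → ∀ q', AL R O k a l q q' ↔ AL R O k a m q q' := by
  induction h with
  | refl => exact ⟨0, fun k _ L q _ _ q' => Iff.rfl⟩
  | symm a l m h ih =>
    obtain ⟨B, hB⟩ := ih (h.isPath_iff.2 hl)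
    exact ⟨B, fun k hk L q hq hL q' => (hB k hk L q hq hL q').symm⟩
  | trans a l m n h1 h2 ih1 ih2 =>
    obtain ⟨B1, hB1⟩ := ih1 hl
    obtain ⟨B2, hB2⟩ := ih2 (h1.isPath_iff.1 hl)
    refine ⟨max B1 B2, fun k hk L q hq hL q' => ?_⟩
    have := le_max_left B1 B2
    have := le_max_right B1 B2
    exact (hB1 k hk L q hq (by linarith) q').trans (hB2 k hk L q hq (by linarith) q')
  | cons a b l m h ih =>
    obtain ⟨B, hB⟩ := ih hl.2
    refine ⟨R.lip + max B 0, fun k hk L q hq hL q' => ?_⟩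
    have h1 := le_max_left B 0
    have h2 := le_max_right B 0
    constructor
    · rintro ⟨q1, g1, g2⟩
      have hg := g1.good hE hU hk hl.1 hq (by linarith)
      exact ⟨q1, g1, (hB k hk _ q1 hg (by linarith) q').1 g2⟩
    · rintro ⟨q1, g1, g2⟩
      have hg := g1.good hE hU hk hl.1 hq (by linarith)
      exact ⟨q1, g1, (hB k hk _ q1 hg (by linarith) q').2 g2⟩
  | spur a b l hab =>
    refine ⟨R.lip, fun k hk L q hq hL q' => ?_⟩
    constructor
    · rintro ⟨q1, g1, q2, g2, g3⟩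
      have := g2.unique hU hk (g1.symm hab)
      subst this
      exact g3
    · intro g
      obtain ⟨q1, g1, -⟩ := ER.exists hE hk hab hq hL
      exact ⟨q1, g1, q, g1.symm hab, g⟩
  | tri a b c l habc =>
    refine ⟨R.lip, fun k hk L q hq hL q' => ?_⟩
    obtain ⟨p1, p2, k1, k2, k3⟩ := ER.tri hE hk habc hq hL
    constructor
    · rintro ⟨q1, g1, q2, g2, g3⟩
      have := g1.unique hU hk k1
      subst this
      have := g2.unique hU hk k2
      subst this
      exact ⟨q2, k3, g3⟩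
    · rintro ⟨q2, g2, g3⟩
      have := g2.unique hU hk k3
      subst this
      exact ⟨p1, k1, q2, k2, g3⟩

end

/-- Module B6. -/
theorem exists_transport_of (hE : ExSec) (hU : SecUniq) {V : Type} {Y : Complex2 V}
    {len : V → V → ℝ} {Γ : V → MGraph V}
    (R : Realization Y len Γ) (hs : SimplyConnected Y) (O : V) (F : Set V) (hF : F.Finite) :
    ∃ (k : ℕ) (q : V → ℕ → R.M) (L : V → ℝ), 0 < k ∧
      (∀ p ∈ F, KGeo k (L p) (q p) ∧ L p ≤ k * (R.r0 / 16) ∧ q p 0 = R.vert O ∧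
        q p k = R.vert p) ∧
      ∀ p ∈ F, ∀ x ∈ F, Y.edge p x → ∃ (s : ℝ → ℕ → R.M) (ℓ : ℝ → ℝ),
        IsSection k (R.vert O) (R.r0 / 16) R.lip (Set.Icc (0 : ℝ) 1) (R.ep p x) s ℓ ∧
        s 0 = q p ∧ s 1 = q x ∧ ℓ 0 = L p ∧ ℓ 1 = L x := by
  classical
  have hr0 : 0 < R.r0 := R.cn.1
  have hlip := R.lip_pos
  -- paths
  choose l hl hlend using fun p => hs.2.1 O p
  -- homotopies
  have hh : ∀ p x : V, ∃ B : ℝ, Y.edge p x → ∀ (k : ℕ), 0 < k → ∀ (L : ℝ) (q : ℕ → R.M),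
      Good R O k O L q → L + B ≤ k * (R.r0 / 16) → ∀ q',
        AL R O k O (l p ++ [x]) q q' ↔ AL R O k O (l x) q q' := by
    intro p x
    by_cases hpx : Y.edge p x
    · have hp1 : IsPath Y O (l p ++ [x]) := by
        rw [isPath_append]
        refine ⟨hl p, ?_⟩
        rw [hlend]
        exact ⟨hpx, trivial⟩
      have hend : endp O (l p ++ [x]) = endp O (l x) := by
        rw [endp_append, hlend x]
        rfl
      have hrev : IsPath Y (endp O (l p ++ [x])) (rev O (l x)) := by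
        rw [hend]
        exact isPath_rev Y O (l x) (hl x)
      have hclosed : Htpy Y O ((l p ++ [x]) ++ rev O (l x)) [] := by
        apply hs.2.2
        · rw [isPath_append]
          exact ⟨hp1, hrev⟩
        · rw [endp_append, hend, endp_rev]
      have h2 := htpy_rev Y O (l x) (hl x)
      have h3 : Htpy Y O ((l p ++ [x]) ++ rev O (l x)) (l x ++ rev O (l x)) :=
        hclosed.trans _ _ _ _ h2.symm
      have h4 := Htpy.cancel_right (rev O (l x)) hend hrev h3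
      obtain ⟨B, hB⟩ := AL.htpy R O hE hU h4 hp1
      exact ⟨B, fun _ => hB⟩
    · exact ⟨0, fun h => absurd h hpx⟩
  choose B hB using hh
  -- the number of steps
  obtain ⟨k, hk0, hk1, hk2⟩ : ∃ k : ℕ, 0 < k ∧
      (∀ p ∈ F, ((l p).length + 1 : ℝ) * R.lip ≤ k * (R.r0 / 16)) ∧
      ∀ p ∈ F, ∀ x ∈ F, B p x ≤ k * (R.r0 / 16) := by
    obtain ⟨C1, hC1⟩ := (hF.image (fun p => ((l p).length + 1 : ℝ) * R.lip)).bddAbove
    obtain ⟨C2, hC2⟩ := ((hF.prod hF).image (fun u => B u.1 u.2)).bddAbove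
    obtain ⟨k, hk⟩ := exists_nat_gt (max (max C1 C2) 1 / (R.r0 / 16))
    rw [div_lt_iff₀ (by positivity)] at hk
    have h1 := le_max_left (max C1 C2) 1
    have h2 := le_max_right (max C1 C2) 1
    have h3 := le_max_left C1 C2
    have h4 := le_max_right C1 C2
    refine ⟨k, ?_, fun p hp => ?_, fun p hp x hx => ?_⟩
    · rcases Nat.eq_zero_or_pos k with h | h
      · rw [h] at hk
        simp only [Nat.cast_zero, zero_mul] at hk
        linarith
      · exact h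
    · have := hC1 ⟨p, hp, rfl⟩
      simp only at this
      linarith
    · have := hC2 ⟨(p, x), ⟨hp, hx⟩, rfl⟩
      simp only at this
      linarith
  have hkR : (0 : ℝ) < k := by exact_mod_cast hk0
  -- the constant sequence
  have hconst : Good R O k O 0 (fun _ => R.vert O) := by
    refine ⟨0, ⟨fun i _ => by simp, fun i _ => by simp, fun i _ => rfl⟩, le_refl _, rfl, rfl⟩
  have hex : ∀ p : V, ∃ q : ℕ → R.M, p ∈ F → AL R O k O (l p) (fun _ => R.vert O) q ∧
      Good R O k p ((l p).length * R.lip) q := by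
    intro p
    by_cases hp : p ∈ F
    · have h1 := hk1 p hp
      obtain ⟨q, h2, h3⟩ := AL.exists hE hk0 (hl p) hconst (by linarith)
      rw [hlend, zero_add] at h3
      exact ⟨q, fun _ => ⟨h2, h3⟩⟩
    · exact ⟨fun _ => R.vert O, fun h => absurd h hp⟩
  choose q hq using hex
  refine ⟨k, q, fun p => k * dist (q p 0) (q p 1), hk0, fun p hp => ?_, fun p hp x hx hpx => ?_⟩
  · obtain ⟨h1, L', h2, h3, h4, h5⟩ := hq p hp
    have h6 := kgeo_len_eq hk0 h2
    beta_reduce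
    rw [← h6]
    refine ⟨h2, ?_, h4, h5⟩
    have := hk1 p hp
    linarith
  · obtain ⟨h1, h2⟩ := hq p hp
    obtain ⟨h3, h4⟩ := hq x hx
    obtain ⟨q'', h5, h6⟩ := ER.exists hE hk0 hpx h2 (by
      have := hk1 p hp
      linarith)
    have h7 : AL R O k O (l p ++ [x]) (fun _ => R.vert O) q'' := by
      refine h1.append ?_
      rw [hlend]
      exact ⟨q'', h5, rfl⟩
    have h8 := (hB p x hpx k hk0 0 _ hconst (by
      have := hk2 p hp x hx
      linarith) q'').1 h7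
    have h9 := h8.unique hU hk0 h3
    subst h9
    obtain ⟨s, ℓ, hs, hs0, hs1⟩ := h5
    refine ⟨s, ℓ, hs, hs0, hs1, ?_, ?_⟩
    · have := kgeo_len_eq hk0 (hs.geo 0 zero_mem_I)
      rw [hs0] at this
      exact this
    · have := kgeo_len_eq hk0 (hs.geo 1 one_mem_I)
      rw [hs1] at this
      exact this

end Pool.Agent.helper40.FJ3
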